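import Pool.Agent.H83.AT.Targets

/-!
Module FE of board at_modules: germs of fibrewise constant sheaves extend along the fibres.
-/

open CategoryTheory CategoryTheory.Limits TopologicalSpace Topology Set Opposite

namespace Pool.Agent.H37.AT

open Pool.Agent.H83.AT Pool.Agent.H96.AL

theorem fe (hII : T_II) (hGL : T_GL) (hTL : T_TL) : T_FE := by
  intro F _ W G hG w t g
  have hP := hII (fun a b => ∀ t ∈ Icc a b, ∀ g : Stk G ((w, t) : cyl W),
    ∃ (O : Opens (cyl W)) (s : Sec G O), (∀ u ∈ Icc a b, ((w, u) : cyl W) ∈ O) ∧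
      ∀ h : ((w, t) : cyl W) ∈ O, gm G h s = g) ?_ ?_ t ⟨bot_le, le_top⟩ g
  · obtain ⟨O, s, hO, hs⟩ := hP
    obtain ⟨N, hN, hNO⟩ := hTL W w O (fun u => hO u ⟨bot_le, le_top⟩)
    refine ⟨N, hN, rs G hNO s, fun h => ?_⟩
    rw [gm_rs]
    exact hs _
  · intro a b c hab hbc hPab hPbc t ht g
    rcases le_total t b with h | h
    · have ht' : t ∈ Icc a b := ⟨ht.1, h⟩
      obtain ⟨O, s, hO, hs⟩ := hPab t ht' g
      obtain ⟨O', s', hO', hs'⟩ := hPbc b ⟨le_rfl, hbc⟩ (gm G (hO b ⟨hab, le_rfl⟩) s)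
      obtain ⟨O'', s'', h1, h2, -⟩ := hGL F W G w a b c hab hbc O O' s s' hO hO'
        (fun _ h' => (hs' h').symm)
      exact ⟨O'', s'', h1, fun h'' => (h2 t ht' (hO t ht') h'').trans (hs _)⟩
    · have ht' : t ∈ Icc b c := ⟨h, ht.2⟩
      obtain ⟨O', s', hO', hs'⟩ := hPbc t ht' g
      obtain ⟨O, s, hO, hs⟩ := hPab b ⟨hab, le_rfl⟩ (gm G (hO' b ⟨le_rfl, hbc⟩) s')
      obtain ⟨O'', s'', h1, -, h3⟩ := hGL F W G w a b c hab hbc O O' s s' hO hO'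
        (fun h _ => hs h)
      exact ⟨O'', s'', h1, fun h'' => (h3 t ht' (hO' t ht') h'').trans (hs' _)⟩
  · intro t₀
    obtain ⟨J, hJo, htJ, hJ⟩ := hG w t₀
    refine ⟨J, hJo, htJ, fun a b _ hab t ht g => ?_⟩
    obtain ⟨O, s, h1, h2, -⟩ := hJ t (hab ht) g
    exact ⟨O, s, fun u hu => h1 u (hab hu), h2⟩

end Pool.Agent.H37.AT
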