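import Pool.Agent.H83.AT.Targets

/-!
Module NI of board at_modules: `A_U` is the extension by zero of the restriction.
-/

open CategoryTheory CategoryTheory.Limits TopologicalSpace Topology Set Opposite

namespace Pool.Agent.H37.AT

open Pool.Agent.H83.AT Pool.Agent.H96.AL

theorem ni (hUI : T_UI) : T_NI := by
  intro F _ X U
  have h : ∀ A : Sh F X, IsIso ((Functor.whiskerRight (pa F (inc U)).unit
      ((cut F X).obj U)).app A) := fun A => hUI F X U A
  have : IsIso (Functor.whiskerRight (pa F (inc U)).unit ((cut F X).obj U)) :=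
    NatIso.isIso_of_isIso_app _
  exact ⟨((cut F X).obj U).leftUnitor.symm ≪≫
    asIso (Functor.whiskerRight (pa F (inc U)).unit ((cut F X).obj U)) ≪≫
    Functor.associator _ _ _⟩

end Pool.Agent.H37.AT
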