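import Pool.Agent.H83.AT.Targets

/-!
Module QE of board at_modules: germs of quotients of injective sheaves extend to global sections.
-/

open CategoryTheory CategoryTheory.Limits TopologicalSpace Topology Set Opposite

namespace Pool.Agent.H37.AT

open Pool.Agent.H83.AT Pool.Agent.H96.AL

theorem qe (hKU : T_KU) : T_QE := by
  intro F _ X B C g hg hB x hx c
  obtain ⟨b, hb⟩ := (epi_iff g).1 hg x c
  obtain ⟨U, hU, u, hu⟩ := exists_gm B b
  obtain ⟨φ, hφ⟩ := (hKU F X U B).2 u
  have hφ' : ap φ U (eU F U) = u := hφ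
  have hψ : ic U (one F X) ≫ Injective.factorThru φ (ic U (one F X)) = φ :=
    Injective.comp_factorThru φ (ic U (one F X))
  refine ⟨ap g ⊤ (ap (Injective.factorThru φ (ic U (one F X))) ⊤ (e1 F X)), ?_⟩
  have h1 : gm (one F X) hx (e1 F X) = sm (ic U (one F X)) x (gm _ hU (eU F U)) := by
    have h2 := gm_ap (ic U (one F X)) hU (eU F U)
    have h3 := gm_rs (one F X) (le_top : U ≤ ⊤) hU (e1 F X)
    rw [ap_ic_eU] at h2
    exact h3.symm.trans h2
  have h4 : gm B hx (ap (Injective.factorThru φ (ic U (one F X))) ⊤ (e1 F X)) = b := by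
    rw [gm_ap, h1, ← sm_comp, hψ, ← gm_ap, hφ', hu]
  rw [gm_ap, h4, hb]

end Pool.Agent.H37.AT
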