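import Pool.Agent.H83.AT.Targets

/-!
Module VC of board at_modules: the counit is an isomorphism for fibrewise constant sheaves.
-/

open CategoryTheory CategoryTheory.Limits TopologicalSpace Topology Set Opposite

namespace Pool.Agent.H37.AT

open Pool.Agent.H83.AT Pool.Agent.H96.AL

theorem vc (hPS : T_PS) (hFE : T_FE) (hFS : T_FS) (hTL : T_TL) : T_VC := by
  intro F _ W G hG
  rw [isIso_iff]
  rintro ⟨w, t⟩
  have key : ∀ (N : Opens W) (hN : w ∈ N) (s : Sec ((pf F (pr W)).obj G) N),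
      sm ((pa F (pr W)).counit.app G) ((w, t) : cyl W)
        (sg (pr W) ((pf F (pr W)).obj G) ((w, t) : cyl W)
          (gm ((pf F (pr W)).obj G) (x := pr W ((w, t) : cyl W)) hN s)) =
        gm G (V := pre (pr W) N) (x := ((w, t) : cyl W)) hN s := by
    intro N hN s
    rw [sg_gm]
    have h1 := gm_ap ((pa F (pr W)).counit.app G) (V := pre (pr W) N) (x := ((w, t) : cyl W)) hN
      (ps (pr W) ((pf F (pr W)).obj G) N s)
    have h2 := congrArg (gm G (V := pre (pr W) N) (x := ((w, t) : cyl W)) hN)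
      (counit_ps (pr W) G N s)
    exact h1.symm.trans h2
  constructor
  · intro g₁ g₂ h12
    rw [← sub_eq_zero]
    have hg : sm ((pa F (pr W)).counit.app G) ((w, t) : cyl W) (g₁ - g₂) = 0 := by
      rw [map_sub, h12, sub_self]
    generalize g₁ - g₂ = g' at hg
    obtain ⟨g, rfl⟩ := (hPS F W (cyl W) (pr W) ((pf F (pr W)).obj G) ((w, t) : cyl W)).2 g'
    obtain ⟨N, hN, s, rfl⟩ := exists_gm ((pf F (pr W)).obj G) g
    have hg2 := (key N hN s).symm.trans hg
    have h0 : ∀ (u : unitInterval), ∀ h : ((w, u) : cyl W) ∈ pre (pr W) N, gm G h s = 0 :=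
      fun u => hFS F W G hG w (pre (pr W) N) s (fun _ => hN) t u (fun _ => hg2)
    have h1 : ∀ u : unitInterval, ∃ V : Opens (cyl W), ((w, u) : cyl W) ∈ V ∧
        ∃ hV : V ≤ pre (pr W) N, rs G hV s = 0 := by
      intro u
      have hu : ((w, u) : cyl W) ∈ pre (pr W) N := hN
      obtain ⟨V, hV, h1, h2, e⟩ := gm_eq G hu hu s 0 (by rw [h0 u hu, map_zero])
      exact ⟨V, hV, h1, by rw [e, map_zero]⟩
    choose V hV hVN hVs using h1
    obtain ⟨N', hN', hle⟩ := hTL W w (iSup V) (fun u => Opens.mem_iSup.2 ⟨u, hV u⟩)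
    have hz : rs ((pf F (pr W)).obj G) (inf_le_right : N' ⊓ N ≤ N) s = 0 := by
      have hle2 : pre (pr W) (N' ⊓ N) ≤ pre (pr W) N := fun y hy => hy.2
      change rs G hle2 s = 0
      apply sec_ext
      intro y hy
      rw [map_zero, gm_rs]
      obtain ⟨u, hu⟩ := Opens.mem_iSup.1 (hle (show y ∈ pre (pr W) N' from hy.1))
      rw [← gm_rs G (hVN u) hu s, hVs u, map_zero]
    have hw : w ∈ N' ⊓ N := ⟨hN', hN⟩
    have h3 := gm_rs ((pf F (pr W)).obj G) (inf_le_right : N' ⊓ N ≤ N) (x := w) hw s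
    rw [hz, map_zero] at h3
    have h4 : gm ((pf F (pr W)).obj G) (x := pr W ((w, t) : cyl W)) hN s = 0 := h3.symm
    rw [h4, map_zero]
  · intro g
    obtain ⟨N, hN, s, hs⟩ := hFE F W G hG w t g
    exact ⟨_, (key N hN s).trans (hs hN)⟩

end Pool.Agent.H37.AT
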